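import Mathlib
import Pool.Agent.H55.BalMult

/-!
# Monochromatic sum-product expressions with balanced bracketing

For every finite colouring of the positive integers and every `M` there are multiples
`a, b, c, d` of `M` such that all values `(a ∘₁ b) ∘₂ (c ∘₃ d)`, each operation being `+` or `·`,
have the same colour.

The proof (folder `Pool/Agent/H55`, files `Bal*`) uses limits of colourings along an ultrafilter on
triples built from a quadratic polynomial van der Waerden theorem, a block Hindman theorem and two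
colour-focusing chains.
-/

set_option autoImplicit false

namespace Pool.Agent.Results.MP_753ad3_co.BalancedSumProduct

/-- The two operations, addition and multiplication. -/
inductive Op where
  | add
  | mul

/-- `o.ap x y` is `x + y` or `x * y` according to the operation `o`. -/
def Op.ap : Op → ℕ+ → ℕ+ → ℕ+
  | .add, x, y => x + y
  | .mul, x, y => x * y

/-- `E(a,b,c,d) = {(a ∘₁ b) ∘₂ (c ∘₃ d) : ∘₁, ∘₂, ∘₃ ∈ {+, ·}}`. -/
def E (a b c d : ℕ+) : Set ℕ+ :=
  {n | ∃ o₁ o₂ o₃ : Op, n = o₂.ap (o₁.ap a b) (o₃.ap c d)}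

/-- A set of positive integers is monochromatic if the colouring is constant on it. -/
def Monochromatic {r : ℕ} (χ : ℕ+ → Fin r) (S : Set ℕ+) : Prop :=
  ∀ x ∈ S, ∀ y ∈ S, χ x = χ y

theorem result (r : ℕ) (χ : ℕ+ → Fin r) (M : ℕ+) :
    ∃ a b c d : ℕ+, M ∣ a ∧ M ∣ b ∧ M ∣ c ∧ M ∣ d ∧ Monochromatic χ (E a b c d) := by
  obtain ⟨T, a, b, c, d, ha, hb, hc, hd, ma, mb, mc, md, h1, h2, h3, h4, h5, h6, h7, h8⟩ :=
    Pool.Agent.H55.Bal.balancedM (fun n : ℕ => if h : 0 < n then χ ⟨n, h⟩ else χ 1) M M.pos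
  have key : ∀ x : ℕ+, (if h : 0 < (x : ℕ) then χ ⟨x, h⟩ else χ 1) = χ x := by
    intro x
    rw [dif_pos x.pos]
    rfl
  refine ⟨⟨a, ha⟩, ⟨b, hb⟩, ⟨c, hc⟩, ⟨d, hd⟩, PNat.dvd_iff.2 ma, PNat.dvd_iff.2 mb,
    PNat.dvd_iff.2 mc, PNat.dvd_iff.2 md, ?_⟩
  have all : ∀ x ∈ E ⟨a, ha⟩ ⟨b, hb⟩ ⟨c, hc⟩ ⟨d, hd⟩, χ x = T := by
    rintro x ⟨o₁, o₂, o₃, rfl⟩
    cases o₁ <;> cases o₂ <;> cases o₃ <;> rw [← key] <;>
      simp only [Op.ap, PNat.add_coe, PNat.mul_coe, PNat.mk_coe] <;>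
      assumption
  intro x hx y hy
  rw [all x hx, all y hy]

end Pool.Agent.Results.MP_753ad3_co.BalancedSumProduct
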